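import Mathlib

/-!
Trace saturated families for quadruples, and the base family of ten triples on six points.
-/

set_option autoImplicit false

namespace Pool.Agent.Work.MP_a8c71c_co

open Finset

/-- The family `M` realises the pattern `P` on the quadruple `x`. -/
def Real {α : Type} (M : Finset (Finset α)) (x : Fin 4 → α) (P : Finset (Fin 4)) : Prop :=
  ∃ S ∈ M, ∀ i, x i ∈ S ↔ i ∈ P

instance {α : Type} [DecidableEq α] (M : Finset (Finset α)) (x : Fin 4 → α)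
    (P : Finset (Fin 4)) : Decidable (Real M x P) := by
  unfold Real; infer_instance

/-- No quadruple has all six two-element patterns realised, and every further set of middle size
realises the unique missing pattern of some quadruple. -/
structure TSat {α : Type} [Fintype α] (M : Finset (Finset α)) : Prop where
  unfilled : ∀ x : Fin 4 → α, ∃ P : Finset (Fin 4), P.card = 2 ∧ ¬ Real M x P
  blocked : ∀ S : Finset α, 2 ≤ S.card → S.card + 2 ≤ Fintype.card α → S ∉ M →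
    ∃ (x : Fin 4 → α) (P : Finset (Fin 4)), P.card = 2 ∧ (∀ i, x i ∈ S ↔ i ∈ P) ∧
      ∀ P' : Finset (Fin 4), P'.card = 2 → P' ≠ P → Real M x P'

/-- The ten triples of a two-fold triple system on six points. -/
def K : Finset (Finset (Fin 6)) :=
  {{0, 1, 2}, {0, 1, 3}, {0, 2, 4}, {1, 3, 4}, {2, 3, 4}, {1, 2, 5}, {0, 3, 5}, {2, 3, 5},
    {0, 4, 5}, {1, 4, 5}}

/-- The six two-element patterns. -/
def pats : Finset (Finset (Fin 4)) := {{0, 1}, {0, 2}, {0, 3}, {1, 2}, {1, 3}, {2, 3}}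

theorem mem_pats (P : Finset (Fin 4)) : P ∈ pats ↔ P.card = 2 := by
  revert P; decide

theorem K_card : K.card = 10 := by decide

theorem K_unfilled_aux : ∀ a b c d : Fin 6, ∃ P ∈ pats, ¬ Real K ![a, b, c, d] P := by
  decide +kernel

/-- The fifteen increasing quadruples of six points. -/
def quads : List (Fin 4 → Fin 6) :=
  [![0, 1, 2, 3], ![0, 1, 2, 4], ![0, 1, 2, 5], ![0, 1, 3, 4], ![0, 1, 3, 5], ![0, 1, 4, 5],
    ![0, 2, 3, 4], ![0, 2, 3, 5], ![0, 2, 4, 5], ![0, 3, 4, 5], ![1, 2, 3, 4], ![1, 2, 3, 5],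
    ![1, 2, 4, 5], ![1, 3, 4, 5], ![2, 3, 4, 5]]

theorem K_blocked_aux : ∀ S : Finset (Fin 6), 2 ≤ S.card → S.card ≤ 4 → S ∉ K →
    ∃ q ∈ quads, ∃ P ∈ pats, (∀ i, q i ∈ S ↔ i ∈ P) ∧
      ∀ P' ∈ pats, P' ≠ P → Real K q P' := by
  decide +kernel

theorem tsat_K : TSat K := by
  refine ⟨fun x => ?_, fun S h2 h4 hS => ?_⟩
  · obtain ⟨P, hP, h⟩ := K_unfilled_aux (x 0) (x 1) (x 2) (x 3)
    refine ⟨P, (mem_pats P).1 hP, ?_⟩
    have hx : ![x 0, x 1, x 2, x 3] = x := by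
      funext i; fin_cases i <;> rfl
    rwa [hx] at h
  · rw [Fintype.card_fin] at h4
    obtain ⟨q, -, P, hP, h, h'⟩ := K_blocked_aux S h2 (by omega) hS
    exact ⟨q, P, (mem_pats P).1 hP, h, fun P' hP' => h' P' ((mem_pats P').2 hP')⟩

/-- Five of the six pairs of four points. -/
def K4 : Finset (Finset (Fin 4)) := {{0, 1}, {0, 2}, {0, 3}, {1, 2}, {1, 3}}

/-- A family of ten sets on five points. -/
def K5 : Finset (Finset (Fin 5)) :=
  {{0, 1}, {0, 2}, {0, 1, 3}, {2, 3}, {1, 2, 3}, {1, 4}, {0, 2, 4}, {1, 2, 4}, {3, 4}, {0, 3, 4}}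

theorem K4_unfilled_aux : ∀ a b c d : Fin 4, ∃ P ∈ pats, ¬ Real K4 ![a, b, c, d] P := by
  decide +kernel

theorem K4_blocked_aux : ∀ S : Finset (Fin 4), 2 ≤ S.card → S.card ≤ 2 → S ∉ K4 →
    ∃ P ∈ pats, (∀ i, ![0, 1, 2, 3] i ∈ S ↔ i ∈ P) ∧
      ∀ P' ∈ pats, P' ≠ P → Real K4 ![0, 1, 2, 3] P' := by
  decide +kernel

theorem K5_unfilled_aux : ∀ a b c d : Fin 5, ∃ P ∈ pats, ¬ Real K5 ![a, b, c, d] P := by
  decide +kernel

/-- The five increasing quadruples of five points. -/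
def quads5 : List (Fin 4 → Fin 5) :=
  [![0, 1, 2, 3], ![0, 1, 2, 4], ![0, 1, 3, 4], ![0, 2, 3, 4], ![1, 2, 3, 4]]

theorem K5_blocked_aux : ∀ S : Finset (Fin 5), 2 ≤ S.card → S.card ≤ 3 → S ∉ K5 →
    ∃ q ∈ quads5, ∃ P ∈ pats, (∀ i, q i ∈ S ↔ i ∈ P) ∧
      ∀ P' ∈ pats, P' ≠ P → Real K5 q P' := by
  decide +kernel

theorem tsat_K4 : TSat K4 := by
  refine ⟨fun x => ?_, fun S h2 h4 hS => ?_⟩
  · obtain ⟨P, hP, h⟩ := K4_unfilled_aux (x 0) (x 1) (x 2) (x 3)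
    refine ⟨P, (mem_pats P).1 hP, ?_⟩
    have hx : ![x 0, x 1, x 2, x 3] = x := by
      funext i; fin_cases i <;> rfl
    rwa [hx] at h
  · rw [Fintype.card_fin] at h4
    obtain ⟨P, hP, h, h'⟩ := K4_blocked_aux S h2 (by omega) hS
    exact ⟨_, P, (mem_pats P).1 hP, h, fun P' hP' => h' P' ((mem_pats P').2 hP')⟩

theorem tsat_K5 : TSat K5 := by
  refine ⟨fun x => ?_, fun S h2 h4 hS => ?_⟩
  · obtain ⟨P, hP, h⟩ := K5_unfilled_aux (x 0) (x 1) (x 2) (x 3)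
    refine ⟨P, (mem_pats P).1 hP, ?_⟩
    have hx : ![x 0, x 1, x 2, x 3] = x := by
      funext i; fin_cases i <;> rfl
    rwa [hx] at h
  · rw [Fintype.card_fin] at h4
    obtain ⟨q, -, P, hP, h, h'⟩ := K5_blocked_aux S h2 (by omega) hS
    exact ⟨q, P, (mem_pats P).1 hP, h, fun P' hP' => h' P' ((mem_pats P').2 hP')⟩

theorem tsat_three : TSat (∅ : Finset (Finset (Fin 3))) := by
  refine ⟨fun x => ⟨{0, 1}, by decide, ?_⟩, fun S h2 h4 _ => ?_⟩
  · rintro ⟨S, hS, -⟩; simp at hS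
  · rw [Fintype.card_fin] at h4; omega

end Pool.Agent.Work.MP_a8c71c_co
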