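import Mathlib
import Pool.Agent.Work.MP_a8c71c_co.Design

/-!
Composition of trace saturated families: from a family on `g + 1` points to one on `g + 5` points,
at the cost of twelve further sets.
-/

set_option autoImplicit false

namespace Pool.Agent.Work.MP_a8c71c_co

open Finset

/-- There is a trace saturated family of at most `m` subsets of `n` points. -/
def HasT (n m : ℕ) : Prop := ∃ M : Finset (Finset (Fin n)), TSat M ∧ M.card ≤ m

theorem hasT_of_equiv {α : Type} [Fintype α] [DecidableEq α] {n m : ℕ} (e : α ≃ Fin n)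
    (M : Finset (Finset α)) (hM : TSat M) (hc : M.card ≤ m) : HasT n m := by
  classical
  have hreal : ∀ x P, Real (M.image (fun S => S.map e.toEmbedding)) x P ↔
      Real M (fun i => e.symm (x i)) P := by
    intro x P
    constructor
    · rintro ⟨T, hT, h⟩
      obtain ⟨S, hS, rfl⟩ := Finset.mem_image.1 hT
      refine ⟨S, hS, fun i => ?_⟩
      rw [← h i, Finset.mem_map_equiv]
    · rintro ⟨S, hS, h⟩
      refine ⟨S.map e.toEmbedding, Finset.mem_image_of_mem _ hS, fun i => ?_⟩
      rw [← h i, Finset.mem_map_equiv]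
  refine ⟨M.image (fun S => S.map e.toEmbedding), ⟨fun x => ?_, fun S h2 h4 hS => ?_⟩,
    Finset.card_image_le.trans hc⟩
  · obtain ⟨P, hP, h⟩ := hM.unfilled (fun i => e.symm (x i))
    exact ⟨P, hP, fun h' => h ((hreal x P).1 h')⟩
  · have hcard : (S.map e.symm.toEmbedding).card = S.card := Finset.card_map _
    have hα : Fintype.card α = Fintype.card (Fin n) := Fintype.card_congr e
    obtain ⟨x, P, hP, h, h'⟩ := hM.blocked (S.map e.symm.toEmbedding) (by omega) (by omega)
      (fun h0 => hS (Finset.mem_image.2 ⟨_, h0, by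
        ext z; simp [Finset.mem_map_equiv]⟩))
    refine ⟨fun i => e (x i), P, hP, fun i => ?_, fun P' hP' hne => (hreal _ _).2 ?_⟩
    · rw [← h i, Finset.mem_map_equiv]; simp
    · simpa using h' P' hP' hne

/-- Collapse the second part to one point. -/
def pG (g : ℕ) : Fin 5 ⊕ Fin g → Fin 6 := Sum.elim Fin.castSucc (fun _ => Fin.last 5)

/-- Collapse the first part to one point. -/
def pX (g : ℕ) : Fin 5 ⊕ Fin g → Fin (g + 1) := Sum.elim (fun _ => 0) Fin.succ

/-- Preimage of a finite set. -/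
def pre {α β : Type} [Fintype α] [DecidableEq β] (p : α → β) (A : Finset β) : Finset α :=
  univ.filter (fun z => p z ∈ A)

theorem mem_pre {α β : Type} [Fintype α] [DecidableEq β] (p : α → β) (A : Finset β) (z : α) :
    z ∈ pre p A ↔ p z ∈ A := by simp [pre]

/-- The first part. -/
def lft (g : ℕ) : Finset (Fin 5 ⊕ Fin g) := univ.filter (fun z => z.isLeft = true)

/-- The second part. -/
def rgt (g : ℕ) : Finset (Fin 5 ⊕ Fin g) := univ.filter (fun z => z.isRight = true)

/-- The composed family. -/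
def comp (g : ℕ) (M : Finset (Finset (Fin (g + 1)))) : Finset (Finset (Fin 5 ⊕ Fin g)) :=
  K.image (pre (pG g)) ∪ M.image (pre (pX g)) ∪ {lft g, rgt g}

theorem comp_card (g : ℕ) (M : Finset (Finset (Fin (g + 1)))) :
    (comp g M).card ≤ M.card + 12 := by
  have h1 : (K.image (pre (pG g))).card ≤ 10 := Finset.card_image_le.trans K_card.le
  have h2 : (M.image (pre (pX g))).card ≤ M.card := Finset.card_image_le
  have h3 : ({lft g, rgt g} : Finset (Finset (Fin 5 ⊕ Fin g))).card ≤ 2 := Finset.card_le_two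
  have h4 := Finset.card_union_le (K.image (pre (pG g)) ∪ M.image (pre (pX g))) {lft g, rgt g}
  have h5 := Finset.card_union_le (K.image (pre (pG g))) (M.image (pre (pX g)))
  unfold comp
  omega

theorem real_comp_iff (g : ℕ) (M : Finset (Finset (Fin (g + 1)))) (x : Fin 4 → Fin 5 ⊕ Fin g)
    (P : Finset (Fin 4)) : Real (comp g M) x P ↔
      Real K (fun i => pG g (x i)) P ∨ Real M (fun i => pX g (x i)) P ∨
        (∀ i, (x i).isLeft = true ↔ i ∈ P) ∨ (∀ i, (x i).isRight = true ↔ i ∈ P) := by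
  constructor
  · rintro ⟨S, hS, h⟩
    simp only [comp, Finset.mem_union, Finset.mem_image, Finset.mem_insert,
      Finset.mem_singleton] at hS
    rcases hS with (⟨A, hA, rfl⟩ | ⟨A, hA, rfl⟩) | (rfl | rfl)
    · exact Or.inl ⟨A, hA, fun i => by rw [← h i, mem_pre]⟩
    · exact Or.inr (Or.inl ⟨A, hA, fun i => by rw [← h i, mem_pre]⟩)
    · exact Or.inr (Or.inr (Or.inl fun i => by rw [← h i]; simp [lft]))
    · exact Or.inr (Or.inr (Or.inr fun i => by rw [← h i]; simp [rgt]))
  · rintro (⟨A, hA, h⟩ | ⟨A, hA, h⟩ | h | h)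
    · refine ⟨pre (pG g) A, ?_, fun i => by rw [← h i, mem_pre]⟩
      simp only [comp, Finset.mem_union, Finset.mem_image]
      exact Or.inl (Or.inl ⟨A, hA, rfl⟩)
    · refine ⟨pre (pX g) A, ?_, fun i => by rw [← h i, mem_pre]⟩
      simp only [comp, Finset.mem_union, Finset.mem_image]
      exact Or.inl (Or.inr ⟨A, hA, rfl⟩)
    · refine ⟨lft g, by simp [comp], fun i => by rw [← h i]; simp [lft]⟩
    · refine ⟨rgt g, by simp [comp], fun i => by rw [← h i]; simp [rgt]⟩

theorem pat_low : ∀ J : Finset (Fin 4), J.card ≤ 1 → ∀ P : Finset (Fin 4), P.card = 2 →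
    ∃ i j, i ∉ J ∧ j ∉ J ∧ i ∈ P ∧ j ∉ P := by decide

theorem pat_high : ∀ J : Finset (Fin 4), 3 ≤ J.card → ∀ P : Finset (Fin 4), P.card = 2 →
    ∃ i j, i ∈ J ∧ j ∈ J ∧ i ∈ P ∧ j ∉ P := by decide

theorem pat_mid : ∀ J : Finset (Fin 4), J.card = 2 → ∃ P : Finset (Fin 4), P.card = 2 ∧
    (∃ i j, i ∈ J ∧ j ∈ J ∧ i ∈ P ∧ j ∉ P) ∧ (∃ i j, i ∉ J ∧ j ∉ J ∧ i ∈ P ∧ j ∉ P) := by decide

theorem comp_unfilled (g : ℕ) (M : Finset (Finset (Fin (g + 1)))) (hM : TSat M)
    (x : Fin 4 → Fin 5 ⊕ Fin g) :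
    ∃ P : Finset (Fin 4), P.card = 2 ∧ ¬ Real (comp g M) x P := by
  set J : Finset (Fin 4) := univ.filter (fun i => (x i).isRight = true) with hJ
  have hr : ∀ i, i ∈ J → (x i).isRight = true := fun i hi => by simpa [hJ] using hi
  have hl : ∀ i, i ∉ J → (x i).isRight = false := fun i hi => by simpa [hJ] using hi
  have hll : ∀ i, i ∉ J → (x i).isLeft = true := fun i hi => by
    have := hl i hi
    cases h : x i <;> simp [h] at this ⊢
  have hrr : ∀ i, i ∈ J → (x i).isLeft = false := fun i hi => by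
    have := hr i hi
    cases h : x i <;> simp [h] at this ⊢
  -- values of the two projections
  have hG : ∀ i, i ∈ J → pG g (x i) = Fin.last 5 := fun i hi => by
    have := hr i hi
    cases h : x i <;> simp [h, pG] at this ⊢
  have hX : ∀ i, i ∉ J → pX g (x i) = 0 := fun i hi => by
    have := hll i hi
    cases h : x i <;> simp [h, pX] at this ⊢
  -- a pattern separating two indices in `J` is not realised by the first kind and the last two
  have hsep : ∀ P : Finset (Fin 4), (∃ i j, i ∈ J ∧ j ∈ J ∧ i ∈ P ∧ j ∉ P) →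
      ¬ Real K (fun i => pG g (x i)) P ∧ ¬ (∀ i, (x i).isLeft = true ↔ i ∈ P) ∧
        ¬ (∀ i, (x i).isRight = true ↔ i ∈ P) := by
    rintro P ⟨i, j, hi, hj, hiP, hjP⟩
    refine ⟨?_, fun h => ?_, fun h => ?_⟩
    · rintro ⟨S, -, h⟩
      have h1 := (h i).2 hiP
      have h2 := mt (h j).1 hjP
      simp only [hG i hi, hG j hj] at h1 h2
      exact h2 h1
    · have := (h i).2 hiP
      rw [hrr i hi] at this; exact absurd this (by decide)
    · exact hjP ((h j).1 (hr j hj))
  have hsep' : ∀ P : Finset (Fin 4), (∃ i j, i ∉ J ∧ j ∉ J ∧ i ∈ P ∧ j ∉ P) →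
      ¬ Real M (fun i => pX g (x i)) P ∧ ¬ (∀ i, (x i).isLeft = true ↔ i ∈ P) ∧
        ¬ (∀ i, (x i).isRight = true ↔ i ∈ P) := by
    rintro P ⟨i, j, hi, hj, hiP, hjP⟩
    refine ⟨?_, fun h => ?_, fun h => ?_⟩
    · rintro ⟨S, -, h⟩
      have h1 := (h i).2 hiP
      have h2 := mt (h j).1 hjP
      simp only [hX i hi, hX j hj] at h1 h2
      exact h2 h1
    · exact hjP ((h j).1 (hll j hj))
    · have := (h i).2 hiP
      rw [hl i hi] at this; exact absurd this (by decide)
  rcases Nat.lt_trichotomy J.card 2 with h | h | h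
  · obtain ⟨P, hP, hn⟩ := tsat_K.unfilled (fun i => pG g (x i))
    obtain ⟨h1, h2, h3⟩ := hsep' P (pat_low J (by omega) P hP)
    refine ⟨P, hP, fun hR => ?_⟩
    rcases (real_comp_iff g M x P).1 hR with h4 | h4 | h4 | h4
    exacts [hn h4, h1 h4, h2 h4, h3 h4]
  · obtain ⟨P, hP, ha, hb⟩ := pat_mid J h
    obtain ⟨h1, h2, h3⟩ := hsep P ha
    obtain ⟨h1', -, -⟩ := hsep' P hb
    refine ⟨P, hP, fun hR => ?_⟩
    rcases (real_comp_iff g M x P).1 hR with h4 | h4 | h4 | h4
    exacts [h1 h4, h1' h4, h2 h4, h3 h4]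
  · obtain ⟨P, hP, hn⟩ := hM.unfilled (fun i => pX g (x i))
    obtain ⟨h1, h2, h3⟩ := hsep P (pat_high J (by omega) P hP)
    refine ⟨P, hP, fun hR => ?_⟩
    rcases (real_comp_iff g M x P).1 hR with h4 | h4 | h4 | h4
    exacts [h1 h4, hn h4, h2 h4, h3 h4]

/-- For a nontrivial subset `B` of the first part, `B` or `B` with the collapsed point is blocked. -/
theorem K_virtual : ∀ B : Finset (Fin 5), B ≠ ∅ → B ≠ univ →
    (2 ≤ B.card ∧ B.card ≤ 4 ∧ B.map Fin.castSuccEmb ∉ K) ∨
    (2 ≤ B.card + 1 ∧ B.card + 1 ≤ 4 ∧ insert (Fin.last 5) (B.map Fin.castSuccEmb) ∉ K) := by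
  decide +kernel

/-- Section of the first projection through a chosen point of the second part. -/
def liftG {g : ℕ} (b : Fin g) : Fin 6 → Fin 5 ⊕ Fin g :=
  Fin.lastCases (motive := fun _ => Fin 5 ⊕ Fin g) (Sum.inr b) (fun a => Sum.inl a)

theorem liftG_last {g : ℕ} (b : Fin g) : liftG b (Fin.last 5) = Sum.inr b := by
  unfold liftG; exact Fin.lastCases_last ..

theorem liftG_castSucc {g : ℕ} (b : Fin g) (a : Fin 5) : liftG b a.castSucc = Sum.inl a := by
  unfold liftG; exact Fin.lastCases_castSucc ..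

theorem pG_liftG {g : ℕ} (b : Fin g) (c : Fin 6) : pG g (liftG b c) = c := by
  induction c using Fin.lastCases with
  | last => rw [liftG_last]; rfl
  | cast a => rw [liftG_castSucc]; rfl

/-- Section of the second projection. -/
def liftX {g : ℕ} : Fin (g + 1) → Fin 5 ⊕ Fin g :=
  Fin.cases (motive := fun _ => Fin 5 ⊕ Fin g) (Sum.inl 0) (fun a => Sum.inr a)

theorem pX_liftX {g : ℕ} (c : Fin (g + 1)) : pX g (liftX c) = c := by
  induction c using Fin.cases with
  | zero => simp [liftX, pX]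
  | succ a => simp [liftX, pX]

/-- The conclusion of blocking. -/
def Blocked {α : Type} (M : Finset (Finset α)) (S : Finset α) : Prop :=
  ∃ (x : Fin 4 → α) (P : Finset (Fin 4)), P.card = 2 ∧ (∀ i, x i ∈ S ↔ i ∈ P) ∧
      ∀ P' : Finset (Fin 4), P'.card = 2 → P' ≠ P → Real M x P'

theorem blocked_of_X {g : ℕ} {M : Finset (Finset (Fin (g + 1)))} (hM : TSat M)
    {S : Finset (Fin 5 ⊕ Fin g)} (hS : S ∉ comp g M) (S' : Finset (Fin (g + 1)))
    (h : S = pre (pX g) S') (h2 : 2 ≤ S'.card) (h4 : S'.card + 2 ≤ g + 1) :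
    Blocked (comp g M) S := by
  subst h
  obtain ⟨y, P, hP, h, h'⟩ := hM.blocked S' h2 (by simpa using h4) (fun h0 => hS (by
    simp only [comp, Finset.mem_union, Finset.mem_image]
    exact Or.inl (Or.inr ⟨_, h0, rfl⟩)))
  refine ⟨fun i => liftX (y i), P, hP, fun i => ?_, fun P' hP' hne => ?_⟩
  · rw [mem_pre, pX_liftX, h i]
  · refine (real_comp_iff _ _ _ _).2 (Or.inr (Or.inl ?_))
    simpa only [pX_liftX] using h' P' hP' hne

theorem blocked_of_G {g : ℕ} {M : Finset (Finset (Fin (g + 1)))}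
    {S : Finset (Fin 5 ⊕ Fin g)} (A : Finset (Fin 6)) (hA : A ∉ K) (h2 : 2 ≤ A.card)
    (h4 : A.card ≤ 4) (hl : ∀ a, Fin.castSucc a ∈ A ↔ Sum.inl a ∈ S) (b : Fin g)
    (hb : Fin.last 5 ∈ A ↔ Sum.inr b ∈ S) :
    Blocked (comp g M) S := by
  obtain ⟨y, P, hP, h, h'⟩ := tsat_K.blocked A h2 (by rw [Fintype.card_fin]; omega) hA
  refine ⟨fun i => liftG b (y i), P, hP, fun i => ?_, fun P' hP' hne => ?_⟩
  · rw [← h i]
    have key : ∀ c : Fin 6, liftG b c ∈ S ↔ c ∈ A := fun c => by
      induction c using Fin.lastCases with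
      | last => rw [liftG_last, hb]
      | cast a => rw [liftG_castSucc, hl]
    exact key (y i)
  · refine (real_comp_iff _ _ _ _).2 (Or.inl ?_)
    simpa only [pG_liftG] using h' P' hP' hne

theorem comp_blocked {g : ℕ} (hg : 1 ≤ g) {M : Finset (Finset (Fin (g + 1)))} (hM : TSat M)
    (S : Finset (Fin 5 ⊕ Fin g)) (h2 : 2 ≤ S.card) (h4 : S.card + 2 ≤ 5 + g)
    (hS : S ∉ comp g M) : Blocked (comp g M) S := by
  classical
  have hcard : S.toLeft.card + S.toRight.card = S.card := Finset.card_toLeft_add_card_toRight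
  have hlft : S ≠ lft g := fun h => hS (by simp [comp, h])
  have hrgt : S ≠ rgt g := fun h => hS (by simp [comp, h])
  have hGmem : ∀ A ∈ K, S ≠ pre (pG g) A := fun A hA h => hS (by
    simp only [comp, Finset.mem_union, Finset.mem_image]
    exact Or.inl (Or.inl ⟨A, hA, h.symm⟩))
  have hRle : S.toRight.card ≤ g := (Finset.card_le_univ _).trans (by simp)
  have hLle : S.toLeft.card ≤ 5 := (Finset.card_le_univ _).trans (by simp)
  by_cases hB0 : S.toLeft = ∅
  · -- `S` is contained in the second part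
    have hl : ∀ a, Sum.inl a ∉ S := fun a ha => by
      have : a ∈ S.toLeft := Finset.mem_toLeft.2 ha
      rw [hB0] at this; simp at this
    have hH : S.toRight ≠ univ := fun h => hrgt (by
      ext z; rcases z with a | b
      · simp [rgt, hl a]
      · have : b ∈ S.toRight := by rw [h]; exact Finset.mem_univ _
        simp [rgt, Finset.mem_toRight.1 this])
    have hlt : S.toRight.card < g := by
      obtain ⟨b, hb⟩ : ∃ b, b ∉ S.toRight := by
        by_contra hc
        exact hH (Finset.eq_univ_iff_forall.2 fun b => by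
          by_contra hb; exact hc ⟨b, hb⟩)
      simpa using Finset.card_lt_univ_of_notMem hb
    refine blocked_of_X hM hS (S.toRight.map (Fin.succEmb g)) ?_ ?_ ?_
    · ext z; rw [mem_pre]; rcases z with a | b
      · simp [pX, hl a, Fin.succ_ne_zero]
      · simp [pX]
    · rw [Finset.card_map]; rw [hB0] at hcard; simp at hcard; omega
    · rw [Finset.card_map]; omega
  by_cases hB1 : S.toLeft = univ
  · have hl : ∀ a, Sum.inl a ∈ S := fun a => Finset.mem_toLeft.1 (by rw [hB1]; simp)
    have hH : S.toRight ≠ ∅ := fun h => hlft (by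
      ext z; rcases z with a | b
      · simp [lft, hl a]
      · have : b ∉ S.toRight := by rw [h]; simp
        have hb : Sum.inr b ∉ S := fun hb => this (Finset.mem_toRight.2 hb)
        simp [lft, hb])
    have hpos : 1 ≤ S.toRight.card := Finset.card_pos.2 (Finset.nonempty_iff_ne_empty.2 hH)
    have hL5 : S.toLeft.card = 5 := by rw [hB1]; simp
    refine blocked_of_X hM hS (insert 0 (S.toRight.map (Fin.succEmb g))) ?_ ?_ ?_
    · ext z; rw [mem_pre]; rcases z with a | b
      · simp [pX, hl a]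
      · simp [pX, Fin.succ_ne_zero]
    · rw [Finset.card_insert_of_notMem (by simp [Fin.succ_ne_zero]), Finset.card_map]; omega
    · rw [Finset.card_insert_of_notMem (by simp [Fin.succ_ne_zero]), Finset.card_map]; omega
  -- the intersection with the first part is nontrivial
  have hLpos : 1 ≤ S.toLeft.card := Finset.card_pos.2 (Finset.nonempty_iff_ne_empty.2 hB0)
  have hLlt : S.toLeft.card ≤ 4 := by
    by_contra hc
    exact hB1 (Finset.eq_univ_of_card _ (by rw [Fintype.card_fin]; omega))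
  set A0 : Finset (Fin 6) := S.toLeft.map Fin.castSuccEmb with hA0
  have hlast : Fin.last 5 ∉ A0 := fun h => by
    obtain ⟨a, -, ha⟩ := Finset.mem_map.1 h
    exact Fin.castSucc_ne_last a ha
  have hc0 : A0.card = S.toLeft.card := Finset.card_map _
  have hc1 : (insert (Fin.last 5) A0).card = S.toLeft.card + 1 := by
    rw [Finset.card_insert_of_notMem hlast, hc0]
  have hm0 : ∀ a, Fin.castSucc a ∈ A0 ↔ Sum.inl a ∈ S := fun a => by simp [hA0]
  have hm1 : ∀ a, Fin.castSucc a ∈ insert (Fin.last 5) A0 ↔ Sum.inl a ∈ S := fun a => by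
    rw [Finset.mem_insert, ← hm0 a]
    exact or_iff_right (Fin.castSucc_ne_last a)
  by_cases hH0 : S.toRight = ∅
  · have hr : ∀ b, Sum.inr b ∉ S := fun b hb => by
      have : b ∈ S.toRight := Finset.mem_toRight.2 hb
      rw [hH0] at this; simp at this
    rw [hH0] at hcard; simp only [Finset.card_empty, add_zero] at hcard
    refine blocked_of_G A0 (fun h => hGmem A0 h ?_) (by omega) (by omega) hm0 ⟨0, by omega⟩
      (iff_of_false hlast (hr _))
    ext z; rw [mem_pre]; rcases z with a | b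
    · exact (hm0 a).symm
    · exact iff_of_false (hr b) hlast
  by_cases hH1 : S.toRight = univ
  · have hr : ∀ b, Sum.inr b ∈ S := fun b => Finset.mem_toRight.1 (by rw [hH1]; simp)
    have hg' : S.toRight.card = g := by rw [hH1]; simp
    refine blocked_of_G (insert (Fin.last 5) A0) (fun h => hGmem _ h ?_) (by omega) (by omega) hm1
      ⟨0, by omega⟩ (iff_of_true (by simp) (hr _))
    ext z; rw [mem_pre]; rcases z with a | b
    · exact (hm1 a).symm
    · exact iff_of_true (hr b) (by simp [pG])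
  obtain ⟨b0, hb0⟩ := Finset.nonempty_iff_ne_empty.2 hH0
  obtain ⟨b1, hb1⟩ : ∃ b, b ∉ S.toRight := by
    by_contra hc
    exact hH1 (Finset.eq_univ_iff_forall.2 fun b => by
      by_contra hb; exact hc ⟨b, hb⟩)
  rcases K_virtual S.toLeft hB0 hB1 with ⟨h1, h2', h3⟩ | ⟨h1, h2', h3⟩
  · exact blocked_of_G A0 h3 (by omega) (by omega) hm0 b1
      (iff_of_false hlast (fun h => hb1 (Finset.mem_toRight.2 h)))
  · exact blocked_of_G (insert (Fin.last 5) A0) h3 (by omega) (by omega) hm1 b0
      (iff_of_true (by simp) (Finset.mem_toRight.1 hb0))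

theorem hasT_step {g m : ℕ} (hg : 1 ≤ g) (h : HasT (g + 1) m) : HasT (g + 5) (m + 12) := by
  obtain ⟨M, hM, hc⟩ := h
  refine hasT_of_equiv (α := Fin 5 ⊕ Fin g)
    ((finSumFinEquiv (m := 5) (n := g)).trans (finCongr (by omega))) (comp g M)
    ⟨comp_unfilled g M hM, fun S h2 h4 hS => ?_⟩ ((comp_card g M).trans (by omega))
  rw [Fintype.card_sum, Fintype.card_fin, Fintype.card_fin] at h4
  exact comp_blocked hg hM S h2 h4 hS

/-- Trace saturated families of size at most `3n - 5`. -/
theorem exists_tsat : ∀ n : ℕ, 4 ≤ n → ∃ m, HasT n m ∧ m + 5 ≤ 3 * n := by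
  intro n
  induction n using Nat.strong_induction_on with
  | _ n ih =>
    intro hn
    by_cases h8 : n < 8
    · interval_cases n
      · exact ⟨5, ⟨K4, tsat_K4, by decide⟩, by norm_num⟩
      · exact ⟨10, ⟨K5, tsat_K5, by decide⟩, by norm_num⟩
      · exact ⟨10, ⟨K, tsat_K, by decide⟩, by norm_num⟩
      · exact ⟨12, hasT_step (g := 2) (m := 0) (by norm_num) ⟨∅, tsat_three, by simp⟩, by norm_num⟩
    · obtain ⟨m, hm, hle⟩ := ih (n - 4) (by omega) (by omega)
      refine ⟨m + 12, ?_, by omega⟩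
      have h1 : n - 4 = (n - 5) + 1 := by omega
      have h2 : n = (n - 5) + 5 := by omega
      rw [h1] at hm
      rw [h2]
      exact hasT_step (by omega) hm

end Pool.Agent.Work.MP_a8c71c_co
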